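import Pool.Agent.R942.HX.Torus
import Pool.Agent.Results.MP_0b15c0_nt.SquareRootExceptions

/-!
# Small witnesses for all integers with long digit strings of typical numbers, or near typical points

Let `A ≥ 2` (`A = 2` is the question). An integer `n ≥ 2` is *decided* if it is prime or has a witness `b` for
the strong test with `1 < b ≤ 2 (log n) ^ A`.

(1) For almost every real number `α`, all bases `b ≥ 2`, `u ≥ 0` and `v > u + 1 / A`, all but finitely many `n`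
such that a string of consecutive base-`b` digits of `n`, at any place, of length `v` times the number of
digits of `n`, occurs in `α`, at any place up to the `n ^ u`-th digit, are decided. The coincidence of the
strings is expressed by `|n / b ^ i - b ^ m α - j| ≤ n ^ (-v)`, `j` an integer, `b ^ i ≤ b n`, `m ≤ n ^ u`. More
generally let `r ≥ 1` and let `N_1, …, N_r` be any real functions of `n`. For almost all real `(α_1, …, α_r)`, all
`b ≥ 2`, `u ≥ 0` and `v > u + 1 / (A r)` all but finitely many `n` such that `N_k (n)` and `α_k` have a common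
string for each `k`, `|N_k (n) / b ^ i - b ^ m α_k - j| ≤ n ^ (-v)`, `b ^ i ≤ b n ^ w`, `m ≤ n ^ u`, are decided.

(2) Let `X i` be random points of a metric space, of any joint distribution, with `P (dist (X i, z) ≤ r) ≤ K r ^ s`
for all `i`, `z`, `r`, let `φ i` be any maps from the natural numbers to that space and `F (n)` sets of at most
`L n ^ u` indices. If `s v - u > 1 / A`, then almost surely all but finitely many `n` with
`dist (X i, φ i (n)) ≤ n ^ (-v)` for some `i` in `F (n)` are decided.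

(3) Let `φ` be any map from the natural numbers to a metric space and `v > 0`. For all `z` in it outside a
set of Hausdorff dimension at most `1 / (A v)` all but finitely many `n` with `dist (φ (n), z) ≤ n ^ (-v)` are
decided.

(4) Let `μ` be any outer measure on a set and let countably many subsets `B n k` of it be attached to each `n`,
with `∑ k, μ (B n k) ≤ C n ^ (-δ)`, `δ > 1 / A`. Then `μ`-almost every `z` lies in `B n k` for only finitely
many pairs `(n, k)` with `n` not decided.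
-/

set_option autoImplicit false

namespace Pool.Agent.Results.MP_0b15c0_nt.CommonDigitStrings

open Pool.Agent.R942.HX MeasureTheory

/-- `n` fails the strong test for the base `b`: writing `n - 1 = 2 ^ j * d` with `d` odd, neither
`b ^ d = 1` nor `b ^ (2 ^ i * d) = -1` for some `i < j`, modulo `n`. -/
def IsWitness (n b : ℕ) : Prop :=
  ∀ j d : ℕ, n - 1 = 2 ^ j * d → Odd d →
    (b : ZMod n) ^ d ≠ 1 ∧ ∀ i : ℕ, i < j → (b : ZMod n) ^ (2 ^ i * d) ≠ -1

/-- `n` is prime or has a witness `b` with `1 < b ≤ 2 (log n) ^ A` -/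
def Decided (A : ℝ) (n : ℕ) : Prop :=
  n.Prime ∨ ∃ b : ℕ, 1 < b ∧ (b : ℝ) ≤ 2 * (Real.log n) ^ A ∧ IsWitness n b

/-- the undecided integers -/
def Und (A : ℝ) : Set ℕ := {n | 2 ≤ n ∧ ¬ Decided A n}

theorem sparse_und (A : ℝ) (hA : 2 ≤ A) : Sparse (fun n : ℕ => (n : ℝ)) (Und A) (1 / A) := by
  refine ⟨fun n hn => ?_, fun ε hε => ?_⟩
  · have h1 : 1 ≤ n := le_trans one_le_two hn.1
    show (1 : ℝ) ≤ (n : ℝ)
    exact_mod_cast h1
  obtain ⟨K, hK⟩ := SquareRootExceptions.result A ε hA hε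
  refine ⟨|K|, fun X hX => ?_⟩
  have hX0 : 0 ≤ X := by linarith
  have h1 : 1 ≤ ⌊X⌋₊ := Nat.le_floor (by exact_mod_cast hX)
  obtain ⟨h2, h3⟩ := hK ⌊X⌋₊ h1
  have hsub : {n : ℕ | n ∈ Und A ∧ (n : ℝ) ≤ X} ⊆ SquareRootExceptions.Exceptions A ⌊X⌋₊ := by
    rintro n ⟨⟨h4, h5⟩, h6⟩
    unfold Decided at h5
    rw [not_or] at h5
    exact ⟨Nat.le_floor h6, h4, h5.1, h5.2⟩
  refine ⟨h2.subset hsub, ?_⟩
  have h4 : ({n : ℕ | n ∈ Und A ∧ (n : ℝ) ≤ X}.ncard : ℝ) ≤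
      (SquareRootExceptions.Exceptions A ⌊X⌋₊).ncard := by
    exact_mod_cast Set.ncard_le_ncard hsub h2
  refine (h4.trans h3).trans ?_
  have hA0 : 0 < A := by linarith
  have h5 : ((⌊X⌋₊ : ℕ) : ℝ) ^ (1 / A + ε) ≤ X ^ (1 / A + ε) :=
    Real.rpow_le_rpow (Nat.cast_nonneg _) (Nat.floor_le hX0) (by positivity)
  calc K * ((⌊X⌋₊ : ℕ) : ℝ) ^ (1 / A + ε) ≤ |K| * ((⌊X⌋₊ : ℕ) : ℝ) ^ (1 / A + ε) :=
        mul_le_mul_of_nonneg_right (le_abs_self K) (by positivity)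
    _ ≤ |K| * X ^ (1 / A + ε) := mul_le_mul_of_nonneg_left h5 (abs_nonneg K)

/-- **Theorem.** See the beginning of the file. -/
theorem result (A : ℝ) (hA : 2 ≤ A) :
    (∀ᵐ α : ℝ, ∀ b : ℕ, 2 ≤ b → ∀ u v : ℝ, 0 ≤ u → u + 1 / A < v →
      {n : ℕ | (2 ≤ n ∧ ¬ Decided A n) ∧
        CommonString b α ((n : ℝ) ^ (1 : ℝ)) ((n : ℝ) ^ u) ((n : ℝ) ^ (-v)) n}.Finite) ∧
    (∀ (r : ℕ) (N : Fin r → ℕ → ℝ) (w : ℝ), 1 ≤ r → 0 ≤ w → ∀ᵐ α : Fin r → ℝ, ∀ b : ℕ, 2 ≤ b →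
      ∀ u v : ℝ, 0 ≤ u → u + 1 / A / r < v → {n : ℕ | (2 ≤ n ∧ ¬ Decided A n) ∧
        ∀ k, CommonString b (α k) ((n : ℝ) ^ w) ((n : ℝ) ^ u) ((n : ℝ) ^ (-v)) (N k n)}.Finite) ∧
    (∀ (Y Ω ι : Type) [PseudoMetricSpace Y] [MeasurableSpace Ω] (P : Measure Ω) (X : ι → Ω → Y)
      (φ : ι → ℕ → Y) (F : ℕ → Finset ι) (K L s u v : ℝ), 1 / A < s * v - u →
      (∀ i y r, 0 < r → P {ω | dist (X i ω) y ≤ r} ≤ ENNReal.ofReal (K * r ^ s)) →
      (∀ n, 2 ≤ n → ((F n).card : ℝ) ≤ L * (n : ℝ) ^ u) →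
      ∀ᵐ ω ∂P, {n : ℕ | (2 ≤ n ∧ ¬ Decided A n) ∧
        ∃ i ∈ F n, dist (X i ω) (φ i n) ≤ (n : ℝ) ^ (-v)}.Finite) ∧
    (∀ (X : Type) [MetricSpace X] (φ : ℕ → X) (v : ℝ), 0 < v →
      dimH {z : X | {n : ℕ | (2 ≤ n ∧ ¬ Decided A n) ∧
        dist (φ n) z ≤ (n : ℝ) ^ (-v)}.Infinite} ≤ ENNReal.ofReal (1 / A / v)) ∧
    (∀ (X : Type) (μ : OuterMeasure X) (B : ℕ → ℕ → Set X) (δ C : ℝ), 1 / A < δ →
      (∀ n, 2 ≤ n → ∑' k, μ (B n k) ≤ ENNReal.ofReal (C * (n : ℝ) ^ (-δ))) →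
      μ {z : X | {p : ℕ × ℕ | (2 ≤ p.1 ∧ ¬ Decided A p.1) ∧ z ∈ B p.1 p.2}.Infinite} = 0) := by
  have hA0 : 0 ≤ 1 / A := by
    have : 0 < A := by linarith
    positivity
  have hS := sparse_und A hA
  exact ⟨hS.strings hA0 (fun n => (n : ℝ)) zero_le_one, fun r N w hr hw => hS.several hA0 hr N hw,
    fun Y Ω ι _ _ P X φ F K L s u v hv hX hF =>
      hS.random hA0 P X φ F hX (fun n hn => hF n hn.1) hv,
    fun X _ φ v hv => hS.dim_map hA0 φ hv,
    fun X μ B δ C hδ h => hS.null hA0 μ B hδ fun n hn => h n hn.1⟩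

end Pool.Agent.Results.MP_0b15c0_nt.CommonDigitStrings
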