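import Pool.Agent.R496.SmoothN

set_option autoImplicit false

/-!
# An integer without a small witness has few small prime factors

If no `b` with `1 < b ≤ y` is a witness for `n` in the strong pseudoprimality test, then for every `u ≥ 1` the
integer `n` has at most `exp (C u log (u + 1))` different prime factors up to `y ^ u`, with an absolute constant
`C`.  In particular, for every `A > 0` there is `c > 0` such that every large integer `n` all of whose prime
factors are at most `exp (c (log log n) ^ 2 / log log log n)` has a witness `b ≤ (log n) ^ A`.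

Proof.  Let `F` be the set of prime factors of `n` up to `Q = y ^ u`, and let `t` be the least exponent of two in
the numbers `p - 1`, `p ∈ F`.  All small primes have the same symbols modulo the `p ∈ F` with exponent `t`, and
symbol one modulo the others.  If `F'` is one of these two classes, the sum of `(m / p) (m / q)` over
`p, q ∈ F'` is `|F'| ^ 2` for all `y`-smooth `m`; summing over all `m ≤ N` and using the inequality of Pólya and
Vinogradov one gets `|F'| ≤ 2 N / Ψ`, where `Ψ` is the number of `y`-smooth numbers up to `N`, if this number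
is larger than `16 Q (1 + 2 log Q)`.  For `N = y ^ j` one has `N ≤ Ψ (K j ^ 2) ^ j`, uniformly for `j ^ 4 ≤ y`.
-/

namespace Pool.Agent.Results.MP_0b15c0_nt.FewSmallPrimes

open Real

/-- `n` fails the strong test for the base `b`: writing `n - 1 = 2 ^ j * d` with `d` odd, neither
`b ^ d = 1` nor `b ^ (2 ^ i * d) = -1` for some `i < j`, modulo `n`. -/
def IsWitness (n b : ℕ) : Prop :=
  ∀ j d : ℕ, n - 1 = 2 ^ j * d → Odd d →
    (b : ZMod n) ^ d ≠ 1 ∧ ∀ i : ℕ, i < j → (b : ZMod n) ^ (2 ^ i * d) ≠ -1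

lemma passes_of_not {n b : ℕ} (h : ¬ IsWitness n b) : Pool.Agent.H379R2.W.Passes n b := by
  by_contra hp
  exact h fun j d hjd hd => ⟨fun e => hp ⟨j, d, hjd, hd, Or.inl e⟩,
    fun i hi e => hp ⟨j, d, hjd, hd, Or.inr ⟨i, hi, e⟩⟩⟩

/-- An integer without a witness `1 < b ≤ y` has at most `exp (C u log (u + 1))` prime factors up to `y ^ u`;
consequently every large integer whose prime factors are at most `exp (c (log log n) ^ 2 / log log log n)` has a
witness `1 < b ≤ (log n) ^ A`. -/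
theorem result :
    (∃ C : ℝ, 0 < C ∧ ∀ n y : ℕ, 2 ≤ n → 2 ≤ y → (∀ b : ℕ, 1 < b → b ≤ y → ¬ IsWitness n b) →
      ∀ u : ℝ, 1 ≤ u →
        ({p : ℕ | p.Prime ∧ p ∣ n ∧ (p : ℝ) ≤ (y : ℝ) ^ u}.ncard : ℝ) ≤
          exp (C * (u * log (u + 1)))) ∧
    (∀ A : ℝ, 0 < A → ∃ c : ℝ, 0 < c ∧ ∃ n₀ : ℕ, ∀ n : ℕ, n₀ ≤ n →
      (∀ p : ℕ, p.Prime → p ∣ n →
        (p : ℝ) ≤ exp (c * (log (log n)) ^ 2 / log (log (log n)))) →
      ∃ b : ℕ, 1 < b ∧ (b : ℝ) ≤ (log n) ^ A ∧ IsWitness n b) := by
  constructor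
  · obtain ⟨C, hC, h⟩ := Pool.Agent.R496.uniform
    refine ⟨C, hC, fun n y hn hy hw u hu => ?_⟩
    have h1 := h n y hn hy (fun b hb1 hb2 => passes_of_not (hw b hb1 hb2)) u hu
    have h2 : {p : ℕ | p.Prime ∧ p ∣ n ∧ (p : ℝ) ≤ (y : ℝ) ^ u} =
        ((Pool.Agent.R496.pfac n ((y : ℝ) ^ u) : Finset ℕ) : Set ℕ) := by
      ext p
      rw [Finset.mem_coe, Pool.Agent.R496.mem_pfac, Nat.mem_primeFactors, Set.mem_setOf_eq]
      constructor
      · exact fun h3 => ⟨⟨h3.1, h3.2.1, by omega⟩, h3.2.2⟩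
      · exact fun h3 => ⟨h3.1.1, h3.1.2.1, h3.2⟩
    rw [h2, Set.ncard_coe_finset]
    exact h1
  · intro A hA
    obtain ⟨c, hc, n0, h⟩ := Pool.Agent.R496.smooth_witness A hA
    refine ⟨c, hc, n0, fun n hn hp => ?_⟩
    obtain ⟨b, hb1, hb2, hb3⟩ := h n hn hp
    refine ⟨b, hb1, hb2, ?_⟩
    by_contra hcon
    exact hb3 (passes_of_not hcon)

end Pool.Agent.Results.MP_0b15c0_nt.FewSmallPrimes
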