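import Pool.Agent.R496.ManyF2

set_option autoImplicit false

/-!
# The least witness of an integer with many prime factors

There is an absolute constant `C` such that every integer `n` with at least `k ≥ 3` different prime factors has a
witness `1 < b ≤ n ^ (C log log k / (k log k))`.  The exponent is `o (1 / k)`; bounds for the least non-residue
of one or two characters give `n ^ (c / k)` only.  In particular every large `n` with at least
`C log n log log log n / (log log n) ^ 2` different prime factors has a witness `1 < b ≤ 2 (log n) ^ 2`.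

Proof.  More than half of `k` prime factors are at most `n ^ (2 / k)`.  By the result `FewSmallPrimes` an integer
without a witness `1 < b ≤ y` has at most `exp (C u log (u + 1))` prime factors up to `y ^ u`.
-/

namespace Pool.Agent.Results.MP_0b15c0_nt.ManyFactors

open Real

/-- `n` fails the strong test for the base `b`: writing `n - 1 = 2 ^ j * d` with `d` odd, neither
`b ^ d = 1` nor `b ^ (2 ^ i * d) = -1` for some `i < j`, modulo `n`. -/
def IsWitness (n b : ℕ) : Prop :=
  ∀ j d : ℕ, n - 1 = 2 ^ j * d → Odd d →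
    (b : ZMod n) ^ d ≠ 1 ∧ ∀ i : ℕ, i < j → (b : ZMod n) ^ (2 ^ i * d) ≠ -1

lemma passes_of_not {n b : ℕ} (h : ¬ IsWitness n b) : Pool.Agent.H379R2.W.Passes n b := by
  by_contra hp
  exact h fun j d hjd hd => ⟨fun e => hp ⟨j, d, hjd, hd, Or.inl e⟩,
    fun i hi e => hp ⟨j, d, hjd, hd, Or.inr ⟨i, hi, e⟩⟩⟩

/-- Every `n` with at least `k ≥ 3` different prime factors has a witness
`1 < b ≤ n ^ (C log log k / (k log k))`; consequently every large `n` with at least
`C log n log log log n / (log log n) ^ 2` different prime factors has a witness `1 < b ≤ 2 (log n) ^ 2`. -/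
theorem result :
    (∃ C : ℝ, 0 < C ∧ ∀ n k : ℕ, 3 ≤ k → k ≤ n.primeFactors.card →
      ∃ b : ℕ, 1 < b ∧ (b : ℝ) ≤ (n : ℝ) ^ (C * log (log k) / (k * log k)) ∧ IsWitness n b) ∧
    (∃ C : ℝ, 0 < C ∧ ∃ n₀ : ℕ, ∀ n : ℕ, n₀ ≤ n →
      C * log n * log (log (log n)) / (log (log n)) ^ 2 ≤ n.primeFactors.card →
      ∃ b : ℕ, 1 < b ∧ (b : ℝ) ≤ 2 * (log n) ^ 2 ∧ IsWitness n b) := by
  constructor
  · obtain ⟨C, hC, h⟩ := Pool.Agent.R496.many_factors
    refine ⟨C, hC, fun n k hk hkn => ?_⟩
    obtain ⟨b, hb1, hb2, hb3⟩ := h n k hk hkn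
    refine ⟨b, hb1, hb2, ?_⟩
    by_contra hcon
    exact hb3 (passes_of_not hcon)
  · obtain ⟨C, hC, n0, h⟩ := Pool.Agent.R496.many_range
    refine ⟨C, hC, n0, fun n hn hc => ?_⟩
    obtain ⟨b, hb1, hb2, hb3⟩ := h n hn hc
    refine ⟨b, hb1, hb2, ?_⟩
    by_contra hcon
    exact hb3 (passes_of_not hcon)

end Pool.Agent.Results.MP_0b15c0_nt.ManyFactors
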