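import Pool.Agent.Results.MP_0b15c0_nt.ThinSequences
import Pool.Agent.R482.ST.Star

/-!
# Small witnesses for the strong pseudoprimality test for all numbers near powers, orbits and other sequences

Let `f_n`, `n = 0, 1, 2, …`, be positive functions on `(a, ∞)`, `a ≥ 0`, such that `f_n(t) / t` is nondecreasing, and such
that the sequence `f_n(t)` has exponent of convergence at most `τ` for each `t > a`: for instance `f_n(t) = t ^ (v_n)` for
exponents `v_n ≥ 1` (`τ = 0`; all powers, the powers `t ^ (3 ^ n)` of Mills, …), the orbits `f_n(t) = g (g (⋯ g (t)))` of any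
map `g` with `g(t) > t` and `g(t) / t` nondecreasing (`τ = 0`; for instance of `t² + c`), and `f_n(t) = v_n t`.
Let `A ≥ 2` and `θ < 1`. For all `α > a` outside a set of Hausdorff dimension at most `(1 / A + τ) / (1 - θ)` and each `c`,
for all but finitely many `n`, ALL integers `m` with `|m - f_n(α)| ≤ c f_n(α) ^ θ` are prime or have a witness
`1 < b ≤ 2 (log m) ^ A`.
-/

set_option autoImplicit false

namespace Pool.Agent.Results.MP_0b15c0_nt.StarshapedWitnesses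

/-- `n` fails the strong test for the base `b`: writing `n - 1 = 2 ^ j * d` with `d` odd, neither
`b ^ d = 1` nor `b ^ (2 ^ i * d) = -1` for some `i < j`, modulo `n`. -/
def IsWitness (n b : ℕ) : Prop :=
  ∀ j d : ℕ, n - 1 = 2 ^ j * d → Odd d →
    (b : ZMod n) ^ d ≠ 1 ∧ ∀ i : ℕ, i < j → (b : ZMod n) ^ (2 ^ i * d) ≠ -1

/-- `m ≥ 2` is prime or has a witness `1 < b ≤ 2 (log m) ^ A`. -/
def Decided (A : ℝ) (m : ℕ) : Prop :=
  2 ≤ m ∧ (m.Prime ∨ ∃ b : ℕ, 1 < b ∧ (b : ℝ) ≤ 2 * (Real.log m) ^ A ∧ IsWitness m b)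

/-- the functions `f n` are positive on `(a, ∞)`, `a ≥ 0`, and `f n x / x` is nondecreasing there -/
def Starshaped (a : ℝ) (f : ℕ → ℝ → ℝ) : Prop :=
  0 ≤ a ∧ ∀ n : ℕ, ∀ x y : ℝ, a < x → x ≤ y → 0 < f n x ∧ f n x / x ≤ f n y / y

/-- for each `x > a` the exponent of convergence of the sequence `f n x` is at most `τ` -/
def ExpLe (a : ℝ) (f : ℕ → ℝ → ℝ) (τ : ℝ) : Prop :=
  ∀ x : ℝ, a < x → ∀ t : ℝ, τ < t → Summable (fun n : ℕ => (f n x) ^ (-t))

/-- **Theorem.** Let `f` be starshaped functions on `(a, ∞)` of exponent of convergence at most `τ ≥ 0`, `θ < 1` and `A ≥ 2`.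
There is a set `E` of Hausdorff dimension at most `(1 / A + τ) / (1 - θ)` such that for each `α > a` outside `E`, each `c` and
all but finitely many `n` ALL integers `m ≥ 0` with `|m - f_n(α)| ≤ c f_n(α) ^ θ` are prime or have a witness
`1 < b ≤ 2 (log m) ^ A`. The functions `v_n x`, `v_n > 0`, are starshaped on `(0, ∞)`, of exponent `τ` if `v` has exponent of convergence at most
`τ`; the functions `x ^ (v_n)`, `v_n ≥ 1`, are starshaped on `(1, ∞)`, of exponent `0` if the sums of `exp (-t v_n)` converge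
for `t > 0`; and the iterates of a map `g` with `g(x) > x` for `x > a` and `g(x) / x` nondecreasing are starshaped on
`(a, ∞)`, of exponent `0`. -/
theorem result :
    (∀ (a : ℝ) (f : ℕ → ℝ → ℝ) (τ θ A : ℝ), Starshaped a f → 0 ≤ τ → ExpLe a f τ → θ < 1 → 2 ≤ A →
      ∃ E : Set ℝ, dimH E ≤ ENNReal.ofReal ((1 / A + τ) / (1 - θ)) ∧ ∀ α : ℝ, a < α → α ∉ E → ∀ c : ℝ,
        ∃ n₀ : ℕ, ∀ n : ℕ, n₀ ≤ n → ∀ m : ℕ, |(m : ℝ) - f n α| ≤ c * (f n α) ^ θ → Decided A m) ∧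
    (∀ (v : ℕ → ℝ) (τ : ℝ), (∀ n, 0 < v n) → (∀ t : ℝ, τ < t → Summable (fun n : ℕ => (v n) ^ (-t))) →
      Starshaped 0 (fun n x => v n * x) ∧ ExpLe 0 (fun n x => v n * x) τ) ∧
    (∀ v : ℕ → ℝ, (∀ n, 1 ≤ v n) → (∀ t : ℝ, 0 < t → Summable fun n : ℕ => Real.exp (-(t * v n))) →
      Starshaped 1 (fun n x => x ^ (v n)) ∧ ExpLe 1 (fun n x => x ^ (v n)) 0) ∧
    (∀ (a : ℝ) (g : ℝ → ℝ), 0 ≤ a → (∀ x y : ℝ, a < x → x ≤ y → g x / x ≤ g y / y) → (∀ x : ℝ, a < x → x < g x) →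
      Starshaped a (fun n x => g^[n] x) ∧ ExpLe a (fun n x => g^[n] x) 0) := by
  refine ⟨fun a f τ θ A hf hτ hE hθ1 hA => ?_, Pool.Agent.R482.ST.ex_mul, Pool.Agent.R482.ST.ex_pow,
    Pool.Agent.R482.ST.ex_orbit⟩
  have hA0 : 0 ≤ 1 / A := by
    have : 0 < A := by linarith
    positivity
  obtain ⟨E, h2, h3⟩ := Pool.Agent.R482.ST.win_nat (ThinSequences.Undecided A) hf hτ hE (s := 1 / A) hA0 hθ1
    (fun ε hε => by
      obtain ⟨C, -, hC⟩ := ThinSequences.count A ε hA hε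
      exact ⟨C, fun X _ => hC X⟩)
  refine ⟨E, h2, fun α hα hαE c => ?_⟩
  obtain ⟨n₀, hn⟩ := h3 α hα hαE c
  refine ⟨n₀, fun n hn1 m hw => ?_⟩
  by_contra hcon
  exact (hn n hn1 m hw).2 hcon

end Pool.Agent.Results.MP_0b15c0_nt.StarshapedWitnesses
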